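import Pool.Agent.MP_582e6d_pr.Main

open Pool.Agent.MP_582e6d_pr

namespace Pool.Agent.Results.MP_582e6d_pr.MotherFirstOptimal

/-- Playing the mother first is optimal for the father, for every `N`. -/
theorem result (N : ℕ) (_hN : 1 ≤ N) (a b c : ℝ) (_ha0 : 0 < a) (hb0 : 0 < b) (hc0 : 0 < c)
    (ha : a < 1 / 2) (_hb : b < 1 / 2) (hc : c < 1 / 2) (hba : b ≤ a) :
    winProb a b c Pairing.FS N N N ≤ winProb a b c Pairing.FM N N N ∧
    winProb a b c Pairing.MS N N N ≤ winProb a b c Pairing.FM N N N :=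
  father_optimal a b c hb0 hba (ha.trans (by norm_num)) hc0 hc.le N

end Pool.Agent.Results.MP_582e6d_pr.MotherFirstOptimal
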